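import Pool.Agent.SCG.Main

/-!
# Domination on strong comparability graphs is solvable in polynomial time
-/

set_option autoImplicit false

namespace Pool.Agent.Results.MP_360560_lc.PolynomialTime

open Pool.Agent.SCG

/-- The decision problem `given a strong comparability graph G and a number k, does G have a
dominating set with at most k vertices` is solvable in polynomial time. -/
theorem result : Function.Injective encInst ∧ ∃ f : Inst → Bool,
    Nonempty (Turing.TM2ComputableInPolyTime encInst encBool f) ∧
    ∀ (n : ℕ) (G : SimpleGraph (Fin n)) (k : ℕ), f ⟨n, G, k⟩ = true ↔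
      IsStrong G ∧ ∃ D : Finset (Fin n), IsDominating G D ∧ D.card ≤ k :=
  main (hC := ⟨Pool.Agent.PT.core⟩)

end Pool.Agent.Results.MP_360560_lc.PolynomialTime
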